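import Pool.Agent.Helper69.UG.Defs

/-!
# Z7: the zeros far away in height
-/

set_option autoImplicit false
open MeasureTheory Set Filter Topology
open Pool.Agent.Helper57.Zeta Pool.Agent.Helper57.LH Pool.Agent.Helper57.ED Pool.Agent.Helper54.LG

namespace Pool.Agent.Helper64.UG

/-- the terms of the digamma series -/
private lemma term_re64 (z : ℂ) (n : ℕ) : (1 / ((n:ℂ) + 1) - 1 / ((n:ℂ) + z)).re =
    1 / ((n:ℝ) + 1) - ((n:ℝ) + z.re) / (((n:ℝ) + z.re) ^ 2 + z.im ^ 2) := by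
  have e1 : (1 / ((n:ℂ) + 1)).re = 1 / ((n:ℝ) + 1) := by
    have : 1 / ((n:ℂ) + 1) = ((1 / ((n:ℝ) + 1) : ℝ) : ℂ) := by push_cast; rfl
    rw [this, Complex.ofReal_re]
  rw [Complex.sub_re, e1, one_div ((n:ℂ) + z), Complex.inv_re, Complex.normSq_apply]
  simp only [Complex.add_re, Complex.natCast_re, Complex.add_im, Complex.natCast_im, zero_add]
  ring

/-- upper bound for the digamma function -/
private lemma digamma_le64 {z : ℂ} (hz : 1 ≤ z.re) : (Complex.digamma z).re ≤ 4 + Real.log (‖z‖ + 2) := by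
  have h1 := Complex.hasSum_re (digamma_hasSum (s := z) (by linarith))
  rw [Complex.add_re, Complex.ofReal_re] at h1
  have hγ := Real.one_half_lt_eulerMascheroniConstant
  have hz1 : 1 ≤ ‖z‖ := hz.trans (Complex.re_le_norm z)
  set M : ℕ := ⌈‖z‖⌉₊ with hM
  have hMz : ‖z‖ ≤ M := Nat.le_ceil _
  have hMz2 : (M:ℝ) < ‖z‖ + 1 := Nat.ceil_lt_add_one (by linarith)
  have hM1 : 1 ≤ M := by
    rw [hM, Nat.one_le_ceil_iff]; linarith
  have hM0 : (0:ℝ) < M := by exact_mod_cast hM1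
  have h2 := h1.tendsto_sum_nat.comp (tendsto_add_atTop_nat M)
  have h3 : ∀ K : ℕ, ∑ n ∈ Finset.range (K + M), (1 / ((n:ℂ) + 1) - 1 / ((n:ℂ) + z)).re ≤ 4 + Real.log (‖z‖ + 2) := by
    intro K
    rw [add_comm K M, Finset.sum_range_add]
    have hA : ∑ n ∈ Finset.range M, (1 / ((n:ℂ) + 1) - 1 / ((n:ℂ) + z)).re ≤ (harmonic M : ℝ) := by
      unfold harmonic
      push_cast
      refine Finset.sum_le_sum fun n _ => ?_
      rw [term_re64, one_div]
      have : (0:ℝ) ≤ n := Nat.cast_nonneg n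
      have : 0 ≤ ((n:ℝ) + z.re) / (((n:ℝ) + z.re) ^ 2 + z.im ^ 2) := by
        apply div_nonneg (by linarith) (by positivity)
      linarith
    have hH1 := harmonic_le_one_add_log M
    have hH2 : Real.log M ≤ Real.log (‖z‖ + 2) := Real.log_le_log hM0 (by linarith)
    have hB : ∑ n ∈ Finset.range K, (1 / (((M + n : ℕ):ℂ) + 1) - 1 / (((M + n : ℕ):ℂ) + z)).re ≤ 2 := by
      have h4 : ∀ n : ℕ, (1 / (((M + n : ℕ):ℂ) + 1) - 1 / (((M + n : ℕ):ℂ) + z)).re ≤
          (2 * M) * (1 / (((n:ℝ) + M) * ((n:ℝ) + M + 1))) := by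
        intro n
        rw [term_re64]
        push_cast
        have hn0 : (0:ℝ) ≤ n := Nat.cast_nonneg n
        set p : ℝ := (n:ℝ) + M with hp
        have hpM : (M:ℝ) ≤ p := by rw [hp]; linarith
        have hp0 : 0 < p := by linarith
        rw [show (M:ℝ) + n = p by rw [hp]; ring]
        have hx1 : z.re ≤ M := (Complex.re_le_norm z).trans hMz
        have hy : z.im ^ 2 ≤ M * p := by
          have h5 := Complex.abs_im_le_norm z
          have h6 : z.im ^ 2 ≤ ‖z‖ ^ 2 := by rw [← sq_abs]; gcongr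
          nlinarith
        have hq : 0 < (p + z.re) ^ 2 + z.im ^ 2 := by positivity
        have e5 : 1 / (p + 1) - (p + z.re) / ((p + z.re) ^ 2 + z.im ^ 2) =
            ((p + z.re) * (z.re - 1) + z.im ^ 2) / ((p + 1) * ((p + z.re) ^ 2 + z.im ^ 2)) := by
          field_simp
          ring
        rw [e5, mul_one_div, div_le_div_iff₀ (by positivity) (by positivity)]
        have h7 : ((p + z.re) * (z.re - 1) + z.im ^ 2) * p ≤ 2 * M * ((p + z.re) ^ 2 + z.im ^ 2) := by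
          have h8 : (p + z.re) * (z.re - 1) * p ≤ (p + z.re) * M * (p + z.re) := by
            gcongr <;> linarith
          have h9 : z.im ^ 2 * p ≤ (M * p) * p := by gcongr
          have h10 : (M * p) * p ≤ M * (p + z.re) ^ 2 := by
            have : p ^ 2 ≤ (p + z.re) ^ 2 := by gcongr; linarith
            nlinarith
          have h11 : 0 ≤ M * z.im ^ 2 := by positivity
          nlinarith
        calc ((p + z.re) * (z.re - 1) + z.im ^ 2) * (p * (p + 1))
            = (((p + z.re) * (z.re - 1) + z.im ^ 2) * p) * (p + 1) := by ring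
          _ ≤ (2 * M * ((p + z.re) ^ 2 + z.im ^ 2)) * (p + 1) := by gcongr
          _ = _ := by ring
      calc ∑ n ∈ Finset.range K, (1 / (((M + n : ℕ):ℂ) + 1) - 1 / (((M + n : ℕ):ℂ) + z)).re
          ≤ ∑ n ∈ Finset.range K, (2 * M) * (1 / (((n:ℝ) + M) * ((n:ℝ) + M + 1))) :=
            Finset.sum_le_sum fun n _ => h4 n
        _ = (2 * M) * (1 / (M:ℝ) - 1 / ((K:ℝ) + M)) := by rw [← Finset.mul_sum, tel_sum M hM1]
        _ ≤ (2 * M) * (1 / (M:ℝ)) := by
            have : 0 ≤ 1 / ((K:ℝ) + M) := by positivity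
            gcongr
            linarith
        _ = 2 := by field_simp
    linarith
  have h4 := le_of_tendsto h2 (Eventually.of_forall fun K => h3 K)
  linarith

/-- the logarithmic derivative of zeta is bounded on `Re s ≥ 2` -/
private lemma logDeriv_zeta64 : ∃ C : ℝ, 0 ≤ C ∧ ∀ s : ℂ, 2 ≤ s.re → ‖logDeriv riemannZeta s‖ ≤ C := by
  set f : ℕ → ℂ := fun n => ((ArithmeticFunction.vonMangoldt n : ℝ) : ℂ) with hf
  have hs2 : Summable fun n => ‖LSeries.term f (2:ℂ) n‖ :=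
    (ArithmeticFunction.LSeriesSummable_vonMangoldt (s := 2) (by norm_num)).norm
  refine ⟨∑' n, ‖LSeries.term f (2:ℂ) n‖, tsum_nonneg fun n => norm_nonneg _, ?_⟩
  intro s hs
  have hle : ∀ n, ‖LSeries.term f s n‖ ≤ ‖LSeries.term f (2:ℂ) n‖ := fun n =>
    LSeries.norm_term_le_of_re_le_re f (by simpa using hs) n
  have hss : Summable fun n => ‖LSeries.term f s n‖ :=
    Summable.of_nonneg_of_le (fun n => norm_nonneg _) hle hs2
  have h1 := ArithmeticFunction.LSeries_vonMangoldt_eq_deriv_riemannZeta_div (s := s) (by linarith)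
  have h2 : ‖logDeriv riemannZeta s‖ = ‖∑' n, LSeries.term f s n‖ := by
    rw [logDeriv_apply, ← norm_neg, ← neg_div, ← h1]
    rfl
  rw [h2]
  exact (norm_tsum_le_tsum_norm hss).trans (hss.tsum_le_tsum hle hs2)

/-- `Re ξ'/ξ` is at most logarithmic. -/
lemma xi_le64 : ∃ C : ℝ, 0 ≤ C ∧ ∀ s : ℂ, 2 ≤ s.re → (logDeriv xi s).re ≤ C + Real.log (‖s‖ + 2) := by
  obtain ⟨C, hC, hb⟩ := logDeriv_zeta64
  refine ⟨C + 4, by linarith, ?_⟩
  intro s hs
  rw [logDeriv_xi (by linarith)]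
  simp only [Complex.add_re]
  have hn : s.re ≤ ‖s‖ := Complex.re_le_norm s
  have h1 : (1 / s).re ≤ 1 := by
    refine (Complex.re_le_norm _).trans ?_
    rw [norm_div, norm_one, div_le_one (by linarith)]
    linarith
  have h2 : (1 / (s - 1)).re ≤ 1 := by
    refine (Complex.re_le_norm _).trans ?_
    have h3 : (s - 1).re ≤ ‖s - 1‖ := Complex.re_le_norm _
    rw [Complex.sub_re, Complex.one_re] at h3
    rw [norm_div, norm_one, div_le_one (by linarith)]
    linarith
  have h3 : (-(Real.log Real.pi : ℂ) / 2).re ≤ 0 := by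
    have : (-(Real.log Real.pi : ℂ) / 2) = ((-(Real.log Real.pi) / 2 : ℝ) : ℂ) := by push_cast; rfl
    rw [this, Complex.ofReal_re]
    have : 0 ≤ Real.log Real.pi := Real.log_nonneg (by have := Real.pi_gt_three; linarith)
    linarith
  have hs2 : (s / 2).re = s.re / 2 := by
    rw [show s / 2 = ((1/2 : ℝ) : ℂ) * s by push_cast; ring, Complex.re_ofReal_mul]; ring
  have h4 : (Complex.digamma (s / 2) / 2).re ≤ 2 + Real.log (‖s‖ + 2) := by
    have h5 := digamma_le64 (z := s / 2) (by rw [hs2]; linarith)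
    have e : (Complex.digamma (s / 2) / 2).re = (Complex.digamma (s / 2)).re / 2 := by
      rw [show Complex.digamma (s / 2) / 2 = ((1/2 : ℝ) : ℂ) * Complex.digamma (s / 2) by push_cast; ring,
        Complex.re_ofReal_mul]; ring
    have h6 : Real.log (‖s / 2‖ + 2) ≤ Real.log (‖s‖ + 2) := by
      apply Real.log_le_log (by positivity)
      rw [norm_div, Complex.norm_ofNat]
      have := norm_nonneg s
      linarith
    have h7 : 0 ≤ Real.log (‖s‖ + 2) := Real.log_nonneg (by have := norm_nonneg s; linarith)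
    rw [e]
    linarith
  have h5 := (Complex.re_le_norm _).trans (hb s hs)
  linarith


/-- the term of the partial fraction at `B + it` -/
lemma re_inv64 (B t : ℝ) (ρ : ℂ) : (1 / ((((B : ℝ) : ℂ) + (t : ℂ) * Complex.I) - ρ)).re =
    (B - ρ.re) / ((B - ρ.re) ^ 2 + (t - ρ.im) ^ 2) := by
  rw [one_div, Complex.inv_re, Complex.normSq_apply]
  simp only [Complex.sub_re, Complex.sub_im, Complex.add_re, Complex.add_im, Complex.ofReal_re,
    Complex.ofReal_im, Complex.mul_re, Complex.mul_im, Complex.I_re, Complex.I_im]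
  ring_nf

lemma hasSum64 {B : ℝ} (hB : 1 ≤ B) (t : ℝ) :
    HasSum (fun ρ : ZS => mx ρ * ((B - (ρ : ℂ).re) / ((B - (ρ : ℂ).re) ^ 2 + (t - (ρ : ℂ).im) ^ 2)))
      (logDeriv xi (((B : ℝ) : ℂ) + (t : ℂ) * Complex.I)).re := by
  have h := pf_hasSum (s := ((B : ℝ) : ℂ) + (t : ℂ) * Complex.I) (by simpa using hB)
  simpa only [re_inv64] using h

open Classical in
/-- Z7: zeros with `|γ - t| > T/2` -/
theorem tail : ∃ C : ℝ, 0 < C ∧ ∀ T : ℝ, 3 ≤ T → ∀ X : ℝ, 1 ≤ X → ∀ t : ℝ,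
    Summable (fun ρ : ZS => mx ρ * (1 / (1 + zb X t ρ ^ 2))) ∧
    ∑' ρ : ZS, mx ρ * (if |(ρ : ℂ).im - t| ≤ T / 2 then 0 else 1 / (1 + zb X t ρ ^ 2)) ≤
      C * Real.log (4 + T + |t|) / T := by
  obtain ⟨C, hC, hb⟩ := xi_le64
  refine ⟨10 * (C + 1), by linarith, fun T hT X hX t => ?_⟩
  have hzb : ∀ ρ : ZS, 1 + (t - (ρ : ℂ).im) ^ 2 ≤ 1 + zb X t ρ ^ 2 := by
    intro ρ
    unfold zb
    rw [mul_pow]
    have h1 : 1 ≤ X ^ 2 := by nlinarith
    have h2 := mul_le_mul_of_nonneg_right h1 (sq_nonneg (t - (ρ : ℂ).im))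
    linarith
  have hS : Summable (fun ρ : ZS => mx ρ * (1 / (1 + zb X t ρ ^ 2))) := by
    refine Summable.of_nonneg_of_le (fun ρ => ?_) (fun ρ => ?_)
      ((hasSum64 (B := 2) (by norm_num) t).summable.mul_left 4)
    · have := mx_nonneg (ρ : ℂ)
      positivity
    · have hβ := zs_re ρ
      have h0 := mx_nonneg (ρ : ℂ)
      have h1 : 1 / (1 + zb X t ρ ^ 2) ≤
          4 * ((2 - (ρ : ℂ).re) / ((2 - (ρ : ℂ).re) ^ 2 + (t - (ρ : ℂ).im) ^ 2)) := by
        have h2 := hzb ρ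
        set b := 2 - (ρ : ℂ).re with hbd
        set d := (t - (ρ : ℂ).im) ^ 2 with hd
        have hd0 : 0 ≤ d := sq_nonneg _
        have hb1 : 1 < b := by rw [hbd]; linarith [hβ.2]
        have hb2 : b < 2 := by rw [hbd]; linarith [hβ.1]
        rw [← mul_div_assoc, div_le_div_iff₀ (by positivity) (by positivity)]
        nlinarith
      calc mx ρ * (1 / (1 + zb X t ρ ^ 2)) ≤ mx ρ * (4 * ((2 - (ρ : ℂ).re) /
            ((2 - (ρ : ℂ).re) ^ 2 + (t - (ρ : ℂ).im) ^ 2))) := mul_le_mul_of_nonneg_left h1 h0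
        _ = _ := by ring
  refine ⟨hS, ?_⟩
  have hH := hasSum64 (B := T + 1) (by linarith) t
  have hle : ∀ ρ : ZS, mx ρ * (if |(ρ : ℂ).im - t| ≤ T / 2 then 0 else 1 / (1 + zb X t ρ ^ 2)) ≤
      10 / T * (mx ρ * ((T + 1 - (ρ : ℂ).re) /
        ((T + 1 - (ρ : ℂ).re) ^ 2 + (t - (ρ : ℂ).im) ^ 2))) := by
    intro ρ
    have hβ := zs_re ρ
    have h0 := mx_nonneg (ρ : ℂ)
    have h1 : (if |(ρ : ℂ).im - t| ≤ T / 2 then 0 else 1 / (1 + zb X t ρ ^ 2)) ≤
        10 / T * ((T + 1 - (ρ : ℂ).re) / ((T + 1 - (ρ : ℂ).re) ^ 2 + (t - (ρ : ℂ).im) ^ 2)) := by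
      have h2 := hzb ρ
      have hb1 : T < T + 1 - (ρ : ℂ).re := by linarith [hβ.2]
      have hb2 : T + 1 - (ρ : ℂ).re < T + 1 := by linarith [hβ.1]
      split_ifs with h3
      · have : 0 < T + 1 - (ρ : ℂ).re := by linarith
        positivity
      · have h4 : T ^ 2 / 4 ≤ (t - (ρ : ℂ).im) ^ 2 := by
          have h5 : T / 2 < |(ρ : ℂ).im - t| := not_le.mp h3
          have h6 : (T / 2) ^ 2 ≤ |(ρ : ℂ).im - t| ^ 2 := by gcongr
          rw [sq_abs] at h6
          nlinarith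
        set b := T + 1 - (ρ : ℂ).re with hbd
        set d := (t - (ρ : ℂ).im) ^ 2 with hd
        have hb0 : 0 < b := by linarith
        have h7 : b ^ 2 ≤ 8 * d := by nlinarith
        have h8 : 1 / (1 + zb X t ρ ^ 2) ≤ 10 / (b ^ 2 + d) := by
          rw [div_le_div_iff₀ (by positivity) (by positivity)]
          nlinarith
        refine h8.trans ?_
        rw [div_mul_div_comm, div_le_div_iff₀ (by positivity) (by positivity)]
        have h9 : 0 ≤ (b - T) * (b ^ 2 + d) := mul_nonneg (by linarith) (by positivity)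
        nlinarith
    calc mx ρ * (if |(ρ : ℂ).im - t| ≤ T / 2 then 0 else 1 / (1 + zb X t ρ ^ 2)) ≤
        mx ρ * (10 / T * ((T + 1 - (ρ : ℂ).re) /
          ((T + 1 - (ρ : ℂ).re) ^ 2 + (t - (ρ : ℂ).im) ^ 2))) := mul_le_mul_of_nonneg_left h1 h0
      _ = _ := by ring
  have hS2 : Summable (fun ρ : ZS => mx ρ * (if |(ρ : ℂ).im - t| ≤ T / 2 then 0 else
      1 / (1 + zb X t ρ ^ 2))) := by
    refine Summable.of_nonneg_of_le (fun ρ => ?_) hle (hH.summable.mul_left _)
    have := mx_nonneg (ρ : ℂ)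
    split_ifs
    · simp
    · positivity
  have h1 := hS2.tsum_le_tsum hle (hH.summable.mul_left (10 / T))
  rw [tsum_mul_left, hH.tsum_eq] at h1
  refine h1.trans ?_
  have h2 := hb (((T + 1 : ℝ) : ℂ) + (t : ℂ) * Complex.I) (by simp; linarith)
  have h3 : Real.log (‖((T + 1 : ℝ) : ℂ) + (t : ℂ) * Complex.I‖ + 2) ≤
      Real.log (4 + T + |t|) := by
    refine Real.log_le_log (by positivity) ?_
    have h4 := Complex.norm_le_abs_re_add_abs_im (((T + 1 : ℝ) : ℂ) + (t : ℂ) * Complex.I)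
    simp only [Complex.add_re, Complex.add_im, Complex.ofReal_re, Complex.ofReal_im,
      Complex.mul_re, Complex.mul_im, Complex.I_re, Complex.I_im, mul_zero, mul_one,
      sub_zero, add_zero, zero_add] at h4
    rw [abs_of_pos (by linarith : 0 < T + 1)] at h4
    linarith
  have h5 : 1 ≤ Real.log (4 + T + |t|) := by
    rw [Real.le_log_iff_exp_le (by positivity)]
    have := Real.exp_one_lt_d9
    have := abs_nonneg t
    linarith
  have h6 : (logDeriv xi (((T + 1 : ℝ) : ℂ) + (t : ℂ) * Complex.I)).re ≤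
      (C + 1) * Real.log (4 + T + |t|) := by nlinarith
  calc 10 / T * (logDeriv xi (((T + 1 : ℝ) : ℂ) + (t : ℂ) * Complex.I)).re ≤
      10 / T * ((C + 1) * Real.log (4 + T + |t|)) := by gcongr
    _ = _ := by ring

end Pool.Agent.Helper64.UG
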